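import Mathlib
import Pool.Agent.Q117.Om.Defs

/-!
# Critical algebras with the same identities in an enlarged signature

Let `k` be a field and `Ω` a signature with a symbol of arity at least two; let `Ω'` be obtained
from `Ω` by adding one symbol of arity `r`.  If `k` is infinite, or if `r = 1` and `k` has more
than two elements, then there are non-isomorphic three-dimensional `Ω'`-algebras with the same
`Ω'`-identities and with the same `Ω`-reduct, which is a critical `Ω`-algebra.

The algebra: the space `k³` with basis `e, f, z`; an operation of `Ω` of arity `n ≥ 2` sends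
`(x_i e + y_i f + z_i z)_i` to `(∏ x_i) e + (∏ y_i) f + (x_1 ∏_{i ≥ 2} y_i) z` (for `n = 2` this is
`ee = e`, `ff = f`, `ef = z`, the other products of basis vectors being zero), the operations of
arity `0` and `1` of `Ω` are zero, and the new operation is `c (∏ x_i) z` with `c ≠ 0`.
-/

set_option autoImplicit false

namespace Pool.Agent.Results.MP_3dda3d_al.SameIdentities

open Pool.Agent.Q117.Om

universe u v w

/-- The signature obtained from `Ω` by adding one symbol of arity `r`. -/
abbrev Adj (Ω : ℕ → Type v) (r : ℕ) : ℕ → Type v := fun n => Ω n ⊕ PLift (n = r)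

/-- The `Ω`-algebra obtained from an algebra over the larger signature by forgetting the added
operation. -/
def reduct {k : Type u} [CommRing k] {Ω : ℕ → Type v} {r : ℕ} {A : Type w} [AddCommGroup A]
    [Module k A] (s : OpStr k (Adj Ω r) A) : OpStr k Ω A :=
  fun n ω => s n (Sum.inl ω)

section

variable {k : Type u} [Field k]

/-- The operations of the critical algebra. -/
noncomputable def base (k : Type u) [Field k] (n : ℕ) :
    MultilinearMap k (fun _ : Fin n => (Fin 3 → k)) (Fin 3 → k) :=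
  if n < 2 then 0 else
    ((MultilinearMap.mkPiAlgebra k (Fin n) k).compLinearMap
      (fun _ => LinearMap.proj (0 : Fin 3))).smulRight ![1, 0, 0] +
    ((MultilinearMap.mkPiAlgebra k (Fin n) k).compLinearMap
      (fun _ => LinearMap.proj (1 : Fin 3))).smulRight ![0, 1, 0] +
    ((MultilinearMap.mkPiAlgebra k (Fin n) k).compLinearMap
      (fun i => LinearMap.proj (if i.val = 0 then 0 else 1 : Fin 3))).smulRight ![0, 0, 1]

theorem base_small (n : ℕ) (hn : n < 2) : base k n = 0 := by
  simp [base, hn]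

theorem base_apply (m : ℕ) (a : Fin (m + 2) → (Fin 3 → k)) :
    base k (m + 2) a = ![∏ i, a i 0, ∏ i, a i 1, a 0 0 * ∏ i : Fin (m + 1), a i.succ 1] := by
  have h : ¬ (m + 2 < 2) := by omega
  have h1 : (∏ i : Fin (m + 2), a i (if i.val = 0 then 0 else 1)) =
      a 0 0 * ∏ i : Fin (m + 1), a i.succ 1 := by
    rw [Fin.prod_univ_succ]
    simp
  funext j
  fin_cases j
  · simp [base]
  · simp [base]
  · simp only [base, if_neg h]
    simpa using h1

/-- The added operation. -/
noncomputable def extra (k : Type u) [Field k] (n : ℕ) :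
    MultilinearMap k (fun _ : Fin n => (Fin 3 → k)) (Fin 3 → k) :=
  ((MultilinearMap.mkPiAlgebra k (Fin n) k).compLinearMap
      (fun _ => LinearMap.proj (0 : Fin 3))).smulRight ![0, 0, 1]

theorem extra_apply (n : ℕ) (a : Fin n → (Fin 3 → k)) :
    extra k n a = ![0, 0, ∏ i, a i 0] := by
  funext j
  fin_cases j <;> simp [extra]

/-- The structure over the signature `Ω`. -/
noncomputable def bstr (k : Type u) [Field k] (Ω : ℕ → Type v) : OpStr k Ω (Fin 3 → k) :=
  fun n _ => base k n

/-- The structure over the larger signature, depending on the parameter `c`. -/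
noncomputable def str (Ω : ℕ → Type v) (r : ℕ) (c : k) : OpStr k (Adj Ω r) (Fin 3 → k) :=
  fun n ω => Sum.elim (fun _ => base k n) (fun _ => c • extra k n) ω

theorem reduct_str (Ω : ℕ → Type v) (r : ℕ) (c : k) : reduct (str Ω r c) = bstr k Ω := rfl

/-- Two-variable value `ω(x, y, …, y)`. -/
theorem base_cons (m : ℕ) (x y : Fin 3 → k) :
    base k (m + 2) (Fin.cons x fun _ => y) =
      ![x 0 * y 0 ^ (m + 1), x 1 * y 1 ^ (m + 1), x 0 * y 1 ^ (m + 1)] := by
  rw [base_apply]
  funext j
  fin_cases j <;> simp [Fin.prod_univ_succ]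

/-- Two-variable value `ω(y, x, y, …, y)`. -/
theorem base_cons' (m : ℕ) (x y : Fin 3 → k) :
    base k (m + 2) (Fin.cons y (Fin.cons x fun _ => y)) =
      ![x 0 * y 0 ^ (m + 1), x 1 * y 1 ^ (m + 1), y 0 * (x 1 * y 1 ^ m)] := by
  rw [base_apply]
  funext j
  fin_cases j
  · simp [Fin.prod_univ_succ, pow_succ]; ring
  · simp [Fin.prod_univ_succ, pow_succ]; ring
  · simp [Fin.prod_univ_succ]

/-! ## The algebra is critical -/

/-- The element `ω(x_0, x_1, …, x_1) - ω(x_1, x_0, x_1, …, x_1)` of the free algebra. -/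
noncomputable def comm {Ω : ℕ → Type v} {m : ℕ} (ω : Ω (m + 2)) : Mono Ω →₀ k :=
  Finsupp.single (.app (m + 2) ω (Fin.cons (.var 0) fun _ => .var 1)) 1 -
  Finsupp.single (.app (m + 2) ω (Fin.cons (.var 1) (Fin.cons (.var 0) fun _ => .var 1))) 1

theorem evalPoly_comm {Ω : ℕ → Type v} {m : ℕ} (ω : Ω (m + 2)) {A : Type w} [AddCommGroup A]
    [Module k A] (s : OpStr k Ω A) (a : ℕ → A) :
    evalPoly s a (comm ω : Mono Ω →₀ k) = s (m + 2) ω (Fin.cons (a 0) fun _ => a 1) -
      s (m + 2) ω (Fin.cons (a 1) (Fin.cons (a 0) fun _ => a 1)) := by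
  have h1 : ∀ f g : Mono Ω →₀ k, evalPoly s a (f - g) = evalPoly s a f - evalPoly s a g := by
    intro f g
    unfold evalPoly
    rw [Finsupp.sum_sub_index]
    intro t b c
    rw [sub_smul]
  have h2 : ∀ t : Mono Ω, evalPoly s a (Finsupp.single t (1 : k)) = t.eval s a := by
    intro t
    rw [evalPoly, Finsupp.sum_single_index (by simp), one_smul]
  rw [comm, h1, h2, h2]
  simp only [Mono.eval]
  congr 2
  · funext i
    refine Fin.cases ?_ (fun i => ?_) i <;> rfl
  · funext i
    refine Fin.cases ?_ (fun i => ?_) i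
    · rfl
    · refine Fin.cases ?_ (fun i => ?_) i <;> rfl

/-- The difference `ω(x, y, …, y) - ω(y, x, y, …, y)`. -/
theorem base_diff (m : ℕ) (x y : Fin 3 → k) :
    base k (m + 2) (Fin.cons x fun _ => y) - base k (m + 2) (Fin.cons y (Fin.cons x fun _ => y)) =
      (y 1 ^ m * (x 0 * y 1 - y 0 * x 1)) • ![0, 0, 1] := by
  rw [base_cons, base_cons']
  funext j
  fin_cases j
  · simp
  · simp
  · simp [pow_succ]; ring

/-- A nonzero ideal contains `z`. -/
theorem z_mem {m : ℕ} (P : (Fin 3 → k) → Prop)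
    (hP : ∀ a : Fin (m + 2) → (Fin 3 → k), (∃ i, P (a i)) → P (base k (m + 2) a))
    (hs : ∀ (c : k) x, P x → P (c • x)) {x : Fin 3 → k} (hx : P x) (hx0 : x ≠ 0) :
    P ![0, 0, 1] := by
  have key : ∀ y : Fin 3 → k, P y → y 0 = 0 → y 1 = 0 → y 2 ≠ 0 → P ![0, 0, 1] := by
    intro y hy h0 h1 h2
    have h3 := hs (y 2)⁻¹ y hy
    have h4 : (y 2)⁻¹ • y = ![0, 0, 1] := by
      funext j
      fin_cases j
      · simp [h0]
      · simp [h1]
      · simp [h2]
    rwa [h4] at h3
  -- `ω(x, f, …, f) = x_1 f + x_0 z`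
  have h2 := hP (Fin.cons x fun _ => ![0, 1, 0]) ⟨0, by simpa using hx⟩
  rw [base_cons] at h2
  by_cases h1 : x 1 = 0
  · by_cases h0 : x 0 = 0
    · refine key x hx h0 h1 ?_
      intro h2
      apply hx0
      funext j
      fin_cases j
      · exact h0
      · exact h1
      · exact h2
    · refine key _ h2 ?_ ?_ ?_
      · simp
      · simp [h1]
      · simp [h0]
  · -- `ω(e, x_1 f + x_0 z, f, …, f) = x_1 z`
    have h3 := hP (Fin.cons ![1, 0, 0] (Fin.cons _ fun _ => ![0, 1, 0])) ⟨1, by simpa using h2⟩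
    rw [base_apply] at h3
    refine key _ h3 ?_ ?_ ?_
    · simp [Fin.prod_univ_succ]
    · simp [Fin.prod_univ_succ]
    · simp [Fin.prod_univ_succ, h1]

theorem sub_coe {Ω : ℕ → Type v} (s : OpStr k Ω (Fin 3 → k)) (R : Submodule k (Fin 3 → k))
    (hR : IsSubalg s R) (n : ℕ) (ω : Ω n) (a : Fin n → R) :
    ((subStr s R hR n ω a : R) : Fin 3 → k) = s n ω (fun i => (a i : Fin 3 → k)) := rfl

theorem critical {Ω : ℕ → Type v} {m : ℕ} (ω : Ω (m + 2)) : IsCritical (bstr k Ω) := by
  intro hcon
  have h1 := hcon (comm ω) ?_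
  · -- not an identity of the algebra
    have h2 := h1 (fun i => if i = 0 then ![1, 0, 0] else ![0, 1, 0])
    rw [evalPoly_comm] at h2
    have h3 := base_diff m ![(1 : k), 0, 0] ![0, 1, 0]
    have h4 := h3.symm.trans h2
    have h5 := congrFun h4 2
    simp at h5
  · intro R hR I hI hprop a
    obtain ⟨x, hx⟩ := I.mkQ_surjective (a 0)
    obtain ⟨y, hy⟩ := I.mkQ_surjective (a 1)
    rw [evalPoly_comm, ← hx, ← hy]
    have e1 : (Fin.cons (I.mkQ x) fun _ => I.mkQ y : Fin (m + 2) → R ⧸ I) =
        fun i => Submodule.Quotient.mk ((Fin.cons x fun _ => y : Fin (m + 2) → R) i) := by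
      funext i
      refine Fin.cases ?_ (fun i => ?_) i <;> rfl
    have e2 : (Fin.cons (I.mkQ y) (Fin.cons (I.mkQ x) fun _ => I.mkQ y) :
        Fin (m + 2) → R ⧸ I) =
        fun i => Submodule.Quotient.mk
          ((Fin.cons y (Fin.cons x fun _ => y) : Fin (m + 2) → R) i) := by
      funext i
      refine Fin.cases ?_ (fun i => ?_) i
      · rfl
      · refine Fin.cases ?_ (fun i => ?_) i <;> rfl
    rw [e1, e2, quotStr_mk, quotStr_mk, ← Submodule.Quotient.mk_sub,
      Submodule.Quotient.mk_eq_zero]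
    -- the value of the difference
    have hval : ((subStr (bstr k Ω) R hR (m + 2) ω (Fin.cons x fun _ => y) -
        subStr (bstr k Ω) R hR (m + 2) ω (Fin.cons y (Fin.cons x fun _ => y)) : R) :
          Fin 3 → k) = (y.1 1 ^ m * (x.1 0 * y.1 1 - y.1 0 * x.1 1)) • ![0, 0, 1] := by
      rw [← base_diff]
      rw [Submodule.coe_sub, sub_coe, sub_coe]
      have c1 : (fun i => (((Fin.cons x fun _ => y : Fin (m + 2) → R) i : R) : Fin 3 → k)) =
          Fin.cons x.1 fun _ => y.1 := by
        funext i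
        refine Fin.cases ?_ (fun i => ?_) i <;> rfl
      have c2 : (fun i => (((Fin.cons y (Fin.cons x fun _ => y) : Fin (m + 2) → R) i : R) :
          Fin 3 → k)) = Fin.cons y.1 (Fin.cons x.1 fun _ => y.1) := by
        funext i
        refine Fin.cases ?_ (fun i => ?_) i
        · rfl
        · refine Fin.cases ?_ (fun i => ?_) i <;> rfl
      rw [c1, c2]
      rfl
    by_cases hD : (y.1 1 ^ m * (x.1 0 * y.1 1 - y.1 0 * x.1 1)) = 0
    · rw [hD, zero_smul] at hval
      have h9 : (subStr (bstr k Ω) R hR (m + 2) ω (Fin.cons x fun _ => y) -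
        subStr (bstr k Ω) R hR (m + 2) ω (Fin.cons y (Fin.cons x fun _ => y)) : R) = 0 :=
        Subtype.ext hval
      rw [h9]
      exact I.zero_mem
    · -- the subalgebra is everything
      have hz : (![0, 0, 1] : Fin 3 → k) ∈ R := by
        rw [← R.smul_mem_iff hD, ← hval]
        exact Submodule.coe_mem _
      have hD' : x.1 0 * y.1 1 - y.1 0 * x.1 1 ≠ 0 := right_ne_zero_of_mul hD
      have hR' : R = ⊤ := by
        rw [eq_top_iff]
        intro v _
        set D := x.1 0 * y.1 1 - y.1 0 * x.1 1 with hDdef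
        have hv : v = ((v 0 * y.1 1 - v 1 * y.1 0) / D) • x.1 +
            ((v 1 * x.1 0 - v 0 * x.1 1) / D) • y.1 +
            (v 2 - ((v 0 * y.1 1 - v 1 * y.1 0) / D) * x.1 2 -
              ((v 1 * x.1 0 - v 0 * x.1 1) / D) * y.1 2) • ![0, 0, 1] := by
          funext j
          fin_cases j
          · simp
            field_simp
            rw [hDdef]; ring
          · simp
            field_simp
            rw [hDdef]; ring
          · simp
        rw [hv]
        exact R.add_mem (R.add_mem (R.smul_mem _ x.2) (R.smul_mem _ y.2)) (R.smul_mem _ hz)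
      have hI0 : I ≠ ⊥ := fun h => hprop ⟨hR', h⟩
      obtain ⟨w, hw, hw0⟩ := Submodule.exists_mem_ne_zero_of_ne_bot hI0
      have hzI := z_mem (k := k) (m := m) (fun v => ∃ h : v ∈ R, (⟨v, h⟩ : R) ∈ I) ?_ ?_
        (x := w.1) ⟨w.2, hw⟩ (fun h => hw0 (Subtype.ext h))
      · obtain ⟨h5, h6⟩ := hzI
        have h7 := I.smul_mem (y.1 1 ^ m * (x.1 0 * y.1 1 - y.1 0 * x.1 1)) h6
        convert h7 using 1
        exact Subtype.ext hval
      · intro b hb
        have hbR : ∀ i, b i ∈ R := fun i => by rw [hR']; trivial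
        refine ⟨by rw [hR']; trivial, ?_⟩
        obtain ⟨i, hi, hi'⟩ := hb
        exact hI (m + 2) ω (fun i => ⟨b i, hbR i⟩) ⟨i, hi'⟩
      · rintro c v ⟨h5, h6⟩
        exact ⟨R.smul_mem c h5, I.smul_mem c h6⟩

/-! ## The identities do not depend on the parameter -/

/-- The part of the value of a monomial which comes from the operations of `Ω`. -/
noncomputable def E {Ω : ℕ → Type v} {r : ℕ} (a : ℕ → Fin 3 → k) : Mono (Adj Ω r) → (Fin 3 → k)
  | .var i => a i
  | .app n (.inl _) ts => base k n (fun i => E a (ts i))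
  | .app _ (.inr _) _ => 0

/-- The part of the value of a monomial which comes from the added operation. -/
noncomputable def V {Ω : ℕ → Type v} {r : ℕ} (a : ℕ → Fin 3 → k) : Mono (Adj Ω r) → k
  | .var _ => 0
  | .app _ (.inl _) _ => 0
  | .app _ (.inr _) ts => ∏ i, E a (ts i) 0

theorem base_congr (n : ℕ) (a b : Fin n → (Fin 3 → k)) (h : ∀ i, a i 0 = b i 0)
    (h' : ∀ i, a i 1 = b i 1) : base k n a = base k n b := by
  by_cases hn : n < 2
  · rw [base_small n hn]; rfl
  · obtain ⟨m, rfl⟩ : ∃ m, n = m + 2 := ⟨n - 2, by omega⟩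
    rw [base_apply, base_apply]
    simp only [h, h']

theorem eval_str {Ω : ℕ → Type v} {r : ℕ} (c : k) (a : ℕ → Fin 3 → k) (t : Mono (Adj Ω r)) :
    t.eval (str Ω r c) a = E a t + (c * V a t) • ![0, 0, 1] := by
  induction t with
  | var i => simp [Mono.eval, E, V]
  | app n ω ts ih =>
    rcases ω with ω | ω
    · simp only [Mono.eval, E, V]
      show base k n _ = _
      rw [mul_zero, zero_smul, add_zero]
      apply base_congr
      · intro i
        rw [ih i]; simp
      · intro i
        rw [ih i]; simp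
    · simp only [Mono.eval, E, V]
      show (c • extra k n) _ = _
      rw [smul_apply, extra_apply]
      have h1 : ∀ i, (ts i).eval (str Ω r c) a 0 = E a (ts i) 0 := by
        intro i
        rw [ih i]; simp
      funext j
      fin_cases j
      · simp
      · simp
      · simp [h1]

/-- The projection to the line of `e`. -/
def pe (x : Fin 3 → k) : Fin 3 → k := ![x 0, 0, 0]

theorem E_pe {Ω : ℕ → Type v} {r : ℕ} (a : ℕ → Fin 3 → k) (t : Mono (Adj Ω r)) :
    E (fun i => pe (a i)) t = pe (E a t) := by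
  induction t with
  | var i => rfl
  | app n ω ts ih =>
    rcases ω with ω | ω
    · simp only [E]
      simp only [ih]
      by_cases hn : n < 2
      · rw [base_small n hn]
        funext j
        fin_cases j <;> simp [pe]
      · obtain ⟨m, rfl⟩ : ∃ m, n = m + 2 := ⟨n - 2, by omega⟩
        rw [base_apply, base_apply]
        funext j
        fin_cases j <;> simp [pe]
    · simp only [E]
      funext j
      fin_cases j <;> simp [pe]

theorem V_pe {Ω : ℕ → Type v} {r : ℕ} (a : ℕ → Fin 3 → k) (t : Mono (Adj Ω r)) :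
    V (fun i => pe (a i)) t = V a t := by
  rcases t with i | ⟨n, ω, ts⟩
  · rfl
  · rcases ω with ω | ω
    · rfl
    · simp only [V, E_pe]
      rfl

theorem evalPoly_str {Ω : ℕ → Type v} {r : ℕ} (c : k) (a : ℕ → Fin 3 → k)
    (f : Mono (Adj Ω r) →₀ k) :
    evalPoly (str Ω r c) a f = (f.sum fun t b => b • E a t) +
      (c * f.sum fun t b => b * V a t) • ![0, 0, 1] := by
  unfold evalPoly
  simp only [Finsupp.sum, eval_str, smul_add, Finset.sum_add_distrib, Finset.mul_sum,
    Finset.sum_smul, smul_smul]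
  congr 1
  refine Finset.sum_congr rfl fun t _ => ?_
  congr 1
  ring

theorem identity_iff_aux {Ω : ℕ → Type v} {r : ℕ} {c : k} (hc : c ≠ 0)
    (f : Mono (Adj Ω r) →₀ k) :
    IsIdentity (str Ω r c) f ↔ ∀ a : ℕ → Fin 3 → k, (f.sum fun t b => b • E a t) = 0 ∧
      (f.sum fun t b => b * V a t) = 0 := by
  constructor
  · intro h
    have hV : ∀ a : ℕ → Fin 3 → k, (f.sum fun t b => b * V a t) = 0 := by
      intro a
      have h1 := h (fun i => pe (a i))
      rw [evalPoly_str] at h1
      simp only [E_pe, V_pe] at h1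
      have h2 := congrFun h1 2
      have h3 : (f.sum fun t b => b • pe (E a t)) 2 = 0 := by
        simp [Finsupp.sum, pe]
      rw [Pi.add_apply, h3, zero_add] at h2
      simpa [hc] using h2
    intro a
    refine ⟨?_, hV a⟩
    have h1 := h a
    rw [evalPoly_str, hV a] at h1
    simpa using h1
  · intro h a
    rw [evalPoly_str, (h a).1, (h a).2]
    simp

theorem identity_iff {Ω : ℕ → Type v} {r : ℕ} {c d : k} (hc : c ≠ 0) (hd : d ≠ 0)
    (f : Mono (Adj Ω r) →₀ k) :
    IsIdentity (str Ω r c) f ↔ IsIdentity (str Ω r d) f := by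
  rw [identity_iff_aux hc, identity_iff_aux hd]

/-! ## The algebras are not isomorphic -/

theorem not_iso {Ω : ℕ → Type v} {m : ℕ} (ω : Ω (m + 2)) (r : ℕ) (c : k)
    (hc : ∀ ζ : k, ζ ^ (m + 1) = 1 → c * ζ ^ r ≠ ζ) :
    ¬ Isomorphic (str Ω r (1 : k)) (str Ω r c) := by
  rintro ⟨φ, hφ⟩
  have hbase : ∀ a : Fin (m + 2) → (Fin 3 → k),
      φ (base k (m + 2) a) = base k (m + 2) (fun i => φ (a i)) := by
    intro a
    exact hφ (m + 2) (Sum.inl ω) a
  have hextra : ∀ a : Fin r → (Fin 3 → k),
      φ (extra k r a) = c • extra k r (fun i => φ (a i)) := by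
    intro a
    have h1 := hφ r (Sum.inr ⟨rfl⟩) a
    have h2 : str Ω r (1 : k) r (Sum.inr ⟨rfl⟩) a = extra k r a := by
      show ((1 : k) • extra k r) a = _
      rw [one_smul]
    rw [h2] at h1
    exact h1
  have hcons : ∀ x y : Fin 3 → k, φ (base k (m + 2) (Fin.cons x fun _ => y)) =
      base k (m + 2) (Fin.cons (φ x) fun _ => φ y) := by
    intro x y
    rw [hbase]
    congr 1
    funext i
    refine Fin.cases ?_ (fun i => ?_) i <;> rfl
  set u := φ ![1, 0, 0] with hu
  set v := φ ![0, 1, 0] with hv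
  set w := φ ![0, 0, 1] with hw
  have h1 : w = ![u 0 * v 0 ^ (m + 1), u 1 * v 1 ^ (m + 1), u 0 * v 1 ^ (m + 1)] := by
    rw [← base_cons, ← hcons, base_cons]
    show φ _ = φ _
    congr 1
    funext j
    fin_cases j <;> simp
  have h2 : (0 : Fin 3 → k) = ![w 0 * w 0 ^ (m + 1), w 1 * w 1 ^ (m + 1), w 0 * w 1 ^ (m + 1)] := by
    rw [← base_cons, ← hcons, base_cons]
    rw [← map_zero φ]
    congr 1
    funext j
    fin_cases j <;> simp
  have h3 : u = ![u 0 * u 0 ^ (m + 1), u 1 * u 1 ^ (m + 1), u 0 * u 1 ^ (m + 1)] := by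
    rw [← base_cons, ← hcons, base_cons]
    show φ _ = φ _
    congr 1
    funext j
    fin_cases j <;> simp
  have h4 : v = ![v 0 * v 0 ^ (m + 1), v 1 * v 1 ^ (m + 1), v 0 * v 1 ^ (m + 1)] := by
    rw [← base_cons, ← hcons, base_cons]
    show φ _ = φ _
    congr 1
    funext j
    fin_cases j <;> simp
  have hw0 : w 0 = 0 := by
    have := congrFun h2 0
    simp at this
    exact this
  have hw1 : w 1 = 0 := by
    have := congrFun h2 1
    simp at this
    exact this
  have hwne : w ≠ 0 := by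
    rw [hw]
    intro h
    rw [map_eq_zero_iff φ φ.injective] at h
    have := congrFun h 2
    simp at this
  have hw2 : w 2 = u 0 * v 1 ^ (m + 1) := by
    have := congrFun h1 2
    simpa using this
  have hw2ne : w 2 ≠ 0 := by
    intro h
    apply hwne
    funext j
    fin_cases j
    · exact hw0
    · exact hw1
    · exact h
  have hu0 : u 0 ≠ 0 := by
    intro h; apply hw2ne; rw [hw2, h, zero_mul]
  have hv1 : v 1 ≠ 0 := by
    intro h; apply hw2ne; rw [hw2, h]; simp
  have hu0' : u 0 ^ (m + 1) = 1 := by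
    have := congrFun h3 0
    simp only [Matrix.cons_val_zero] at this
    have h5 : u 0 * u 0 ^ (m + 1) = u 0 * 1 := by rw [← this, mul_one]
    exact mul_left_cancel₀ hu0 h5
  have hv1' : v 1 ^ (m + 1) = 1 := by
    have := congrFun h4 1
    simp only [Matrix.cons_val_one, Matrix.cons_val_zero] at this
    have h5 : v 1 * v 1 ^ (m + 1) = v 1 * 1 := by rw [← this, mul_one]
    exact mul_left_cancel₀ hv1 h5
  have hw2' : w 2 = u 0 := by rw [hw2, hv1', mul_one]
  -- the added operation
  have h6 := hextra (fun _ => ![1, 0, 0])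
  rw [extra_apply, extra_apply] at h6
  have h7 : φ ![0, 0, ∏ i : Fin r, (![(1 : k), 0, 0] : Fin 3 → k) 0] = w := by
    rw [hw]
    congr 1
    funext j
    fin_cases j <;> simp
  rw [h7] at h6
  have h8 := congrFun h6 2
  rw [hw2'] at h8
  have h9 : (c • ![0, 0, ∏ _i : Fin r, φ ![1, 0, 0] 0] : Fin 3 → k) 2 = c * u 0 ^ r := by
    simp [← hu]
  exact hc (u 0) hu0' (h9.symm.trans h8.symm)

end

/-- Let `k` be a field, `Ω` a signature with a symbol of arity at least two and `r` a natural
number; let `Ω'` be obtained from `Ω` by adding one symbol of arity `r`.  Assume that `k` is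
infinite, or that `r = 1` and that `k` has more than two elements.  Then there are two
`Ω'`-algebras over `k` of dimension three whose `Ω`-reducts are isomorphic and critical, and which
have the same `Ω'`-identities, but which are not isomorphic. -/
theorem result (k : Type u) [Field k] (Ω : ℕ → Type v) (hΩ : ∃ n, 2 ≤ n ∧ Nonempty (Ω n)) (r : ℕ)
    (hk : Infinite k ∨ (r = 1 ∧ ∃ c : k, c ≠ 0 ∧ c ≠ 1)) :
    ∃ (A : Type u) (_ : AddCommGroup A) (_ : Module k A) (B : Type u) (_ : AddCommGroup B)
      (_ : Module k B) (s : OpStr k (Adj Ω r) A) (t : OpStr k (Adj Ω r) B),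
      Module.finrank k A = 3 ∧ Module.finrank k B = 3 ∧
      Isomorphic (reduct s) (reduct t) ∧ IsCritical (reduct s) ∧ IsCritical (reduct t) ∧
      (∀ f : Mono (Adj Ω r) →₀ k, IsIdentity s f ↔ IsIdentity t f) ∧
      ¬ Isomorphic s t := by
  classical
  obtain ⟨n, hn, ⟨ω⟩⟩ := hΩ
  obtain ⟨m, rfl⟩ : ∃ m, n = m + 2 := ⟨n - 2, by omega⟩
  obtain ⟨c, hc0, hc⟩ : ∃ c : k, c ≠ 0 ∧ ∀ ζ : k, ζ ^ (m + 1) = 1 → c * ζ ^ r ≠ ζ := by
    rcases hk with hk | ⟨rfl, c, hc0, hc1⟩
    · -- `c ^ (m + 1) ≠ 1`
      have hfin : ((Polynomial.nthRoots (m + 1) (1 : k)).toFinset : Set k).Finite :=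
        Finset.finite_toSet _
      have h2 : ((insert 0 ((Polynomial.nthRoots (m + 1) (1 : k)).toFinset : Set k))ᶜ).Infinite :=
        Set.Finite.infinite_compl (hfin.insert 0)
      obtain ⟨c, hc⟩ := h2.nonempty
      rw [Set.mem_compl_iff, Set.mem_insert_iff, not_or] at hc
      refine ⟨c, hc.1, fun ζ hζ h => hc.2 ?_⟩
      rw [Finset.mem_coe, Multiset.mem_toFinset, Polynomial.mem_nthRoots (by omega)]
      have h3 := congrArg (fun x => x ^ (m + 1)) h
      simp only [mul_pow, ← pow_mul] at h3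
      rw [mul_comm r, pow_mul, hζ, one_pow, mul_one] at h3
      exact h3
    · refine ⟨c, hc0, fun ζ hζ h => hc1 ?_⟩
      have hζ0 : ζ ≠ 0 := by
        rintro rfl
        rw [zero_pow (by omega)] at hζ
        exact zero_ne_one hζ
      rw [pow_one] at h
      have h3 : c * ζ = 1 * ζ := by rw [h, one_mul]
      exact mul_right_cancel₀ hζ0 h3
  refine ⟨Fin 3 → k, inferInstance, inferInstance, Fin 3 → k, inferInstance, inferInstance,
    str Ω r 1, str Ω r c, by simp, by simp, ?_, ?_, ?_, ?_, not_iso ω r c hc⟩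
  · rw [reduct_str, reduct_str]
    exact ⟨LinearEquiv.refl k _, fun n ω a => rfl⟩
  · rw [reduct_str]; exact critical ω
  · rw [reduct_str]; exact critical ω
  · intro f
    exact identity_iff one_ne_zero hc0 f

end Pool.Agent.Results.MP_3dda3d_al.SameIdentities
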